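import Mathlib

open Filter Topology InnerProductSpace

namespace Pool.Agent.Results.MP_653b50_an.NoRestrictedLimit

/-- The product `U` of `n` upper half planes in `ℂ^n`. -/
def HalfPlanes (n : ℕ) : Set (Fin n → ℂ) := {z | ∀ j, 0 < (z j).im}

/-- `u` is multiply harmonic on `U`: harmonic in each variable separately, the other variables
being held fixed. -/
def MultiplyHarmonic {n : ℕ} (u : (Fin n → ℂ) → ℝ) : Prop :=
  ∀ z ∈ HalfPlanes n, ∀ j : Fin n,
    HarmonicAt (fun w : ℂ => u (Function.update z j w)) (z j)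

/-- The region `R` of points of `U` with `c₁ ≤ y_j / y_k ≤ c₂` for all `j < k`. -/
def Region (n : ℕ) (c₁ c₂ : ℝ) : Set (Fin n → ℂ) :=
  {z | z ∈ HalfPlanes n ∧
    ∀ j k : Fin n, j < k → c₁ ≤ (z j).im / (z k).im ∧ (z j).im / (z k).im ≤ c₂}

/-- The product cone `Γ(x)`: points of `U` with `|x_j - x̄_j| < y_j` for all `j`. -/
def ProductCone {n : ℕ} (x : Fin n → ℝ) : Set (Fin n → ℂ) :=
  {z | z ∈ HalfPlanes n ∧ ∀ j, |(z j).re - x j| < (z j).im}

/-- `u` has a restricted limit at the boundary point `x`. -/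
def HasRestrictedLimitAt {n : ℕ} (u : (Fin n → ℂ) → ℝ) (c₁ c₂ : ℝ) (x : Fin n → ℝ) : Prop :=
  ∃ ℓ : ℝ, Tendsto u
    (𝓝[ProductCone x ∩ Region n c₁ c₂] (fun j => ((x j : ℝ) : ℂ))) (𝓝 ℓ)

/-- Lacunary frequencies. -/
noncomputable def N (k : ℕ) : ℝ := (2 : ℝ) ^ (k ^ 2)

lemma N_pos (k : ℕ) : 0 < N k := by unfold N; positivity

lemma N_succ (k : ℕ) : N (k + 1) = 2 ^ (2 * k + 1) * N k := by
  unfold N; rw [← pow_add]; congr 1; ring

lemma two_mul_N_le (k : ℕ) : 2 * N k ≤ N (k + 1) := by
  rw [N_succ]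
  have h : (2 : ℝ) ≤ 2 ^ (2 * k + 1) := by
    calc (2 : ℝ) = 2 ^ 1 := by norm_num
      _ ≤ 2 ^ (2 * k + 1) := pow_le_pow_right₀ (by norm_num) (by omega)
  exact mul_le_mul_of_nonneg_right h (N_pos k).le

lemma exp_est {a y : ℝ} (hy : 0 < y) :
    a * Real.exp (-(a * y)) ≤ (2 / y) * (Real.exp (-(a * y / 2)) - Real.exp (-(a * y))) := by
  have h1 : Real.exp (-(a * y / 2)) = Real.exp (-(a * y)) * Real.exp (a * y / 2) := by
    rw [← Real.exp_add]; congr 1; ring
  have h2 : a * y / 2 + 1 ≤ Real.exp (a * y / 2) := Real.add_one_le_exp _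
  have h3 : 0 < Real.exp (-(a * y)) := Real.exp_pos _
  have h4 : (2 / y) * (Real.exp (-(a * y / 2)) - Real.exp (-(a * y)))
      = Real.exp (-(a * y)) * ((2 / y) * (Real.exp (a * y / 2) - 1)) := by
    rw [h1]; ring
  rw [h4, mul_comm a]
  apply mul_le_mul_of_nonneg_left _ h3.le
  rw [div_mul_eq_mul_div, le_div_iff₀ hy]
  linarith

lemma sum_tail_le (p : ℕ) {y : ℝ} (hy : 0 < y) (K : ℕ) :
    ∑ i ∈ Finset.range K, N (i + p) * Real.exp (-(N (i + p) * y)) ≤
      (2 / y) * (Real.exp (-(N p * y / 2)) - Real.exp (-(N (K + p) * y / 2))) := by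
  induction K with
  | zero => simp
  | succ K ih =>
    rw [Finset.sum_range_succ]
    have h1 := exp_est (a := N (K + p)) hy
    have h2 : Real.exp (-(N (K + 1 + p) * y / 2)) ≤ Real.exp (-(N (K + p) * y)) := by
      apply Real.exp_le_exp.mpr
      have h3 := two_mul_N_le (K + p)
      have h4 : K + 1 + p = K + p + 1 := by ring
      rw [h4]
      nlinarith
    have h5 : 0 < 2 / y := by positivity
    nlinarith [mul_le_mul_of_nonneg_left h2 h5.le]

lemma sum_tail_le' (p : ℕ) {y : ℝ} (hy : 0 < y) (K : ℕ) :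
    ∑ i ∈ Finset.range K, N (i + p) * Real.exp (-(N (i + p) * y)) ≤
      (2 / y) * Real.exp (-(N p * y / 2)) := by
  refine (sum_tail_le p hy K).trans ?_
  apply mul_le_mul_of_nonneg_left _ (by positivity)
  linarith [Real.exp_pos (-(N (K + p) * y / 2))]

lemma summable_aux (p : ℕ) {y : ℝ} (hy : 0 < y) :
    Summable (fun i => N (i + p) * Real.exp (-(N (i + p) * y))) :=
  summable_of_sum_range_le (fun _ => mul_nonneg (N_pos _).le (Real.exp_pos _).le)
    (sum_tail_le' p hy)

lemma tsum_aux_le (p : ℕ) {y : ℝ} (hy : 0 < y) :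
    ∑' i, N (i + p) * Real.exp (-(N (i + p) * y)) ≤ (2 / y) * Real.exp (-(N p * y / 2)) :=
  Real.tsum_le_of_sum_range_le (fun _ => mul_nonneg (N_pos _).le (Real.exp_pos _).le)
    (sum_tail_le' p hy)

/-- The terms of the lacunary series. -/
noncomputable def F (k : ℕ) (w : ℂ) : ℂ :=
  (N k : ℂ) * (Complex.exp (Complex.I * N k * w) + Complex.exp (2 * Complex.I * N k * w))

/-- The lacunary function on the upper half plane. -/
noncomputable def V (w : ℂ) : ℂ := ∑' k, F k w

lemma norm_F_le (k : ℕ) {w : ℂ} (hw : 0 < w.im) :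
    ‖F k w‖ ≤ 2 * (N k * Real.exp (-(N k * w.im))) := by
  unfold F
  rw [norm_mul, Complex.norm_real, Real.norm_of_nonneg (N_pos k).le]
  have h1 : ‖Complex.exp (Complex.I * N k * w)‖ = Real.exp (-(N k * w.im)) := by
    rw [Complex.norm_exp]; congr 1; simp
  have h2 : ‖Complex.exp (2 * Complex.I * N k * w)‖ = Real.exp (-(2 * N k * w.im)) := by
    rw [Complex.norm_exp]; congr 1; simp
  have h3 : Real.exp (-(2 * N k * w.im)) ≤ Real.exp (-(N k * w.im)) := by
    apply Real.exp_le_exp.mpr
    have := mul_pos (N_pos k) hw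
    nlinarith
  have h4 := norm_add_le (Complex.exp (Complex.I * N k * w)) (Complex.exp (2 * Complex.I * N k * w))
  rw [h1, h2] at h4
  have h5 := N_pos k
  nlinarith

lemma summable_F {w : ℂ} (hw : 0 < w.im) : Summable (fun k => F k w) := by
  have h := (summable_aux 0 hw).mul_left 2
  simp only [add_zero] at h
  exact Summable.of_norm_bounded h (fun k => norm_F_le k hw)

lemma norm_tail_le (p : ℕ) {w : ℂ} (hw : 0 < w.im) :
    ‖∑' i, F (i + p) w‖ ≤ (4 / w.im) * Real.exp (-(N p * w.im / 2)) := by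
  have hs := (summable_aux p hw).mul_left 2
  have h1 : ‖∑' i, F (i + p) w‖ ≤ ∑' i, 2 * (N (i + p) * Real.exp (-(N (i + p) * w.im))) :=
    tsum_of_norm_bounded hs.hasSum (fun i => norm_F_le (i + p) hw)
  rw [tsum_mul_left] at h1
  have h2 := tsum_aux_le p hw
  have h3 : (4 / w.im) * Real.exp (-(N p * w.im / 2)) =
    2 * ((2 / w.im) * Real.exp (-(N p * w.im / 2))) := by ring
  rw [h3]
  linarith

lemma norm_V_le {w : ℂ} (hw : 0 < w.im) : ‖V w‖ ≤ 4 / w.im := by
  have h := norm_tail_le 0 hw
  simp only [add_zero] at h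
  unfold V
  refine h.trans ?_
  have h1 : Real.exp (-(N 0 * w.im / 2)) ≤ 1 := by
    apply Real.exp_le_one_iff.mpr
    have := mul_pos (N_pos 0) hw
    linarith
  have h2 : 0 < 4 / w.im := by positivity
  nlinarith

lemma analyticAt_V {w : ℂ} (hw : 0 < w.im) : AnalyticAt ℂ V w := by
  set δ := w.im / 2 with hδ
  have hδ0 : 0 < δ := by positivity
  have hopen : IsOpen {v : ℂ | δ < v.im} := isOpen_lt continuous_const Complex.continuous_im
  have hs := (summable_aux 0 hδ0).mul_left 2
  simp only [add_zero] at hs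
  have hd : DifferentiableOn ℂ (fun v : ℂ => ∑' k, F k v) {v : ℂ | δ < v.im} := by
    refine Complex.differentiableOn_tsum_of_summable_norm hs (fun k => ?_) hopen (fun k v hv => ?_)
    · unfold F; fun_prop
    · have hv' : δ < v.im := hv
      have hv0 : 0 < v.im := hδ0.trans hv'
      refine (norm_F_le k hv0).trans ?_
      have h1 : Real.exp (-(N k * v.im)) ≤ Real.exp (-(N k * δ)) := by
        apply Real.exp_le_exp.mpr
        have := mul_le_mul_of_nonneg_left hv'.le (N_pos k).le
        linarith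
      have h5 := N_pos k
      nlinarith
  have hm : w ∈ {v : ℂ | δ < v.im} := by
    show δ < w.im
    rw [hδ]; linarith
  exact hd.analyticAt (hopen.mem_nhds hm)

lemma sum_head_le (m : ℕ) : ∑ k ∈ Finset.range (m + 1), N k ≤ 2 * N m := by
  induction m with
  | zero => simp; linarith [N_pos 0]
  | succ m ih =>
    rw [Finset.sum_range_succ]
    have := two_mul_N_le m
    linarith

/-- The main asymptotic estimate at the heights `s / N (m+1)`. -/
lemma main_est (x : ℝ) {s : ℝ} (hs : 0 < s) (m : ℕ) :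
    |(s / N (m + 1)) * (V ((x : ℂ) + ((s / N (m + 1) : ℝ) : ℂ) * Complex.I)).re
      - s * (Real.exp (-s) * Real.cos (N (m + 1) * x)
        + Real.exp (-(2 * s)) * Real.cos (2 * N (m + 1) * x))|
      ≤ 4 * s * (N m / N (m + 1)) + 4 * Real.exp (-(s * (N (m + 2) / N (m + 1)) / 2)) := by
  set y : ℝ := s / N (m + 1) with hy
  have hN := N_pos (m + 1)
  have hy0 : 0 < y := by positivity
  set w : ℂ := (x : ℂ) + (y : ℂ) * Complex.I with hw
  have hwim : w.im = y := by simp [hw]
  have hwre : w.re = x := by simp [hw]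
  have hw0 : 0 < w.im := by rw [hwim]; exact hy0
  have hsplit := (summable_F hw0).sum_add_tsum_nat_add (m + 2)
  rw [Finset.sum_range_succ] at hsplit
  have hV : V w = ∑ k ∈ Finset.range (m + 1), F k w + F (m + 1) w + ∑' i, F (i + (m + 2)) w :=
    hsplit.symm
  have hmid : y * (F (m + 1) w).re = s * (Real.exp (-s) * Real.cos (N (m + 1) * x)
        + Real.exp (-(2 * s)) * Real.cos (2 * N (m + 1) * x)) := by
    unfold F
    have e1 : (Complex.I * N (m + 1) * w) = ((-(N (m + 1) * y) : ℝ) : ℂ)
        + ((N (m + 1) * x : ℝ) : ℂ) * Complex.I := by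
      rw [hw]; push_cast; ring_nf; rw [Complex.I_sq]; ring
    have e2 : (2 * Complex.I * N (m + 1) * w) = ((-(2 * (N (m + 1) * y)) : ℝ) : ℂ)
        + ((2 * N (m + 1) * x : ℝ) : ℂ) * Complex.I := by
      rw [hw]; push_cast; ring_nf; rw [Complex.I_sq]; ring
    have hNy : N (m + 1) * y = s := by rw [hy]; field_simp
    rw [e1, e2, hNy, Complex.re_ofReal_mul, Complex.add_re, Complex.exp_re, Complex.exp_re]
    simp only [Complex.add_re, Complex.ofReal_re, Complex.mul_re, Complex.I_re, mul_zero,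
      Complex.ofReal_im, Complex.I_im, mul_one, sub_self, add_zero, Complex.add_im,
      Complex.mul_im, zero_add]
    rw [← mul_assoc, mul_comm y, hNy]
  have hhead : ‖∑ k ∈ Finset.range (m + 1), F k w‖ ≤ 4 * N m := by
    refine (norm_sum_le _ _).trans ?_
    have h1 : ∀ k ∈ Finset.range (m + 1), ‖F k w‖ ≤ 2 * N k := by
      intro k _
      refine (norm_F_le k hw0).trans ?_
      have h2 : Real.exp (-(N k * w.im)) ≤ 1 := by
        apply Real.exp_le_one_iff.mpr
        have := mul_pos (N_pos k) hw0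
        linarith
      have h3 := N_pos k
      nlinarith
    refine (Finset.sum_le_sum h1).trans ?_
    rw [← Finset.mul_sum]
    have := sum_head_le m
    linarith
  have htail := norm_tail_le (m + 2) hw0
  rw [hwim] at htail
  have hre1 := Complex.abs_re_le_norm (∑ k ∈ Finset.range (m + 1), F k w)
  have hre2 := Complex.abs_re_le_norm (∑' i, F (i + (m + 2)) w)
  have hkey : y * (V w).re - s * (Real.exp (-s) * Real.cos (N (m + 1) * x)
        + Real.exp (-(2 * s)) * Real.cos (2 * N (m + 1) * x))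
      = y * (∑ k ∈ Finset.range (m + 1), F k w).re + y * (∑' i, F (i + (m + 2)) w).re := by
    rw [← hmid, hV, Complex.add_re, Complex.add_re]; ring
  rw [hkey]
  refine (abs_add_le _ _).trans ?_
  rw [abs_mul, abs_mul, abs_of_pos hy0]
  have t1 : y * |(∑ k ∈ Finset.range (m + 1), F k w).re| ≤ 4 * s * (N m / N (m + 1)) := by
    calc y * |(∑ k ∈ Finset.range (m + 1), F k w).re| ≤ y * (4 * N m) :=
          mul_le_mul_of_nonneg_left (hre1.trans hhead) hy0.le
      _ = 4 * s * (N m / N (m + 1)) := by rw [hy]; field_simp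
  have t2 : y * |(∑' i, F (i + (m + 2)) w).re| ≤
      4 * Real.exp (-(s * (N (m + 2) / N (m + 1)) / 2)) := by
    calc y * |(∑' i, F (i + (m + 2)) w).re|
        ≤ y * ((4 / y) * Real.exp (-(N (m + 2) * y / 2))) :=
          mul_le_mul_of_nonneg_left (hre2.trans htail) hy0.le
      _ = 4 * Real.exp (-(N (m + 2) * y / 2)) := by field_simp
      _ = 4 * Real.exp (-(s * (N (m + 2) / N (m + 1)) / 2)) := by
          congr 2; rw [hy]; ring
  exact add_le_add t1 t2

lemma ratio_tendsto : Tendsto (fun m : ℕ => N m / N (m + 1)) atTop (𝓝 0) := by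
  have h : (fun m : ℕ => N m / N (m + 1)) = fun m : ℕ => (1 / 2 : ℝ) * ((1 / 4 : ℝ)) ^ m := by
    funext m
    rw [N_succ, pow_add, pow_mul]
    have := (N_pos m).ne'
    field_simp
    rw [← mul_pow]; norm_num
  rw [h]
  have := (tendsto_pow_atTop_nhds_zero_of_lt_one (r := (1 / 4 : ℝ)) (by norm_num)
    (by norm_num)).const_mul (1 / 2 : ℝ)
  simpa using this

lemma ratio_tendsto_atTop : Tendsto (fun m : ℕ => N (m + 2) / N (m + 1)) atTop atTop := by
  have h : (fun m : ℕ => N (m + 2) / N (m + 1)) = fun m : ℕ => (8 : ℝ) * (4 : ℝ) ^ m := by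
    funext m
    rw [N_succ (m + 1)]
    have := (N_pos (m + 1)).ne'
    field_simp
    rw [show 2 * (m + 1) + 1 = 2 * m + 3 by ring, pow_add, pow_mul]
    norm_num; ring
  rw [h]
  exact (tendsto_pow_atTop_atTop_of_one_lt (by norm_num : (1 : ℝ) < 4)).const_mul_atTop (by norm_num)

lemma error_tendsto {s : ℝ} (hs : 0 < s) :
    Tendsto (fun m : ℕ => 4 * s * (N m / N (m + 1))
      + 4 * Real.exp (-(s * (N (m + 2) / N (m + 1)) / 2))) atTop (𝓝 0) := by
  have h1 := ratio_tendsto.const_mul (4 * s)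
  have h2 : Tendsto (fun m : ℕ => s * (N (m + 2) / N (m + 1)) / 2) atTop atTop :=
    (ratio_tendsto_atTop.const_mul_atTop hs).atTop_div_const (by norm_num)
  have h3 := (Real.tendsto_exp_neg_atTop_nhds_zero.comp h2).const_mul 4
  have h4 := h1.add h3
  simpa using h4

/-- If the lacunary function, multiplied by the height, converges along the heights
`s / N (m+1)` to a limit independent of `s`, we get a contradiction. -/
lemma no_limit (x ℓ : ℝ) (h : ∀ s : ℝ, 0 < s →
    Tendsto (fun m : ℕ => (s / N (m + 1)) *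
      (V ((x : ℂ) + ((s / N (m + 1) : ℝ) : ℂ) * Complex.I)).re) atTop (𝓝 ℓ)) : False := by
  -- the main terms converge to `ℓ`
  have hmain : ∀ s : ℝ, 0 < s → Tendsto (fun m : ℕ => s * (Real.exp (-s) *
      Real.cos (N (m + 1) * x) + Real.exp (-(2 * s)) * Real.cos (2 * N (m + 1) * x)))
      atTop (𝓝 ℓ) := by
    intro s hs
    have h1 : Tendsto (fun m : ℕ => (s / N (m + 1)) *
        (V ((x : ℂ) + ((s / N (m + 1) : ℝ) : ℂ) * Complex.I)).re
        - s * (Real.exp (-s) * Real.cos (N (m + 1) * x)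
        + Real.exp (-(2 * s)) * Real.cos (2 * N (m + 1) * x))) atTop (𝓝 0) :=
      squeeze_zero_norm (fun m => by simpa [Real.norm_eq_abs] using main_est x hs m)
        (error_tendsto hs)
    have h2 := (h s hs).sub h1
    simpa using h2
  have hℓ : ∀ s : ℝ, 0 < s → |ℓ| ≤ 2 * s := by
    intro s hs
    refine le_of_tendsto (hmain s hs).abs (Eventually.of_forall fun m => ?_)
    rw [abs_mul, abs_of_pos hs]
    have e1 : Real.exp (-s) ≤ 1 := Real.exp_le_one_iff.mpr (by linarith)
    have e2 : Real.exp (-(2 * s)) ≤ 1 := Real.exp_le_one_iff.mpr (by linarith)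
    have e3 := Real.abs_cos_le_one (N (m + 1) * x)
    have e4 := Real.abs_cos_le_one (2 * N (m + 1) * x)
    have e5 : |Real.exp (-s) * Real.cos (N (m + 1) * x)
        + Real.exp (-(2 * s)) * Real.cos (2 * N (m + 1) * x)| ≤ 1 + 1 := by
      refine (abs_add_le _ _).trans (add_le_add ?_ ?_)
      · rw [abs_mul, abs_of_pos (Real.exp_pos _)]
        exact mul_le_one₀ e1 (abs_nonneg _) e3
      · rw [abs_mul, abs_of_pos (Real.exp_pos _)]
        exact mul_le_one₀ e2 (abs_nonneg _) e4
    nlinarith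
  have hℓ0 : ℓ = 0 := by
    by_contra hne
    have hpos : 0 < |ℓ| := abs_pos.mpr hne
    have := hℓ (|ℓ| / 4) (by positivity)
    linarith
  subst hℓ0
  have hA1 := (hmain 1 one_pos).const_mul (Real.exp 1)
  have hA2 := (hmain 2 two_pos).const_mul (Real.exp 2 / 2)
  have hB1 : Tendsto (fun m : ℕ => Real.cos (N (m + 1) * x)
      + Real.exp (-1) * Real.cos (2 * N (m + 1) * x)) atTop (𝓝 0) := by
    have : (fun m : ℕ => Real.cos (N (m + 1) * x)
      + Real.exp (-1) * Real.cos (2 * N (m + 1) * x)) = fun m : ℕ => Real.exp 1 *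
      (1 * (Real.exp (-1) * Real.cos (N (m + 1) * x)
        + Real.exp (-(2 * 1)) * Real.cos (2 * N (m + 1) * x))) := by
      funext m
      have e1 : Real.exp 1 * Real.exp (-1) = 1 := by rw [← Real.exp_add]; simp
      have e2 : Real.exp 1 * Real.exp (-(2 * 1)) = Real.exp (-1) := by
        rw [← Real.exp_add]; congr 1; norm_num
      calc Real.cos (N (m + 1) * x) + Real.exp (-1) * Real.cos (2 * N (m + 1) * x)
          = (Real.exp 1 * Real.exp (-1)) * Real.cos (N (m + 1) * x)
            + (Real.exp 1 * Real.exp (-(2 * 1))) * Real.cos (2 * N (m + 1) * x) := by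
              rw [e1, e2]; ring
        _ = _ := by ring
    rw [this]; simpa using hA1
  have hB2 : Tendsto (fun m : ℕ => Real.cos (N (m + 1) * x)
      + Real.exp (-2) * Real.cos (2 * N (m + 1) * x)) atTop (𝓝 0) := by
    have : (fun m : ℕ => Real.cos (N (m + 1) * x)
      + Real.exp (-2) * Real.cos (2 * N (m + 1) * x)) = fun m : ℕ => Real.exp 2 / 2 *
      (2 * (Real.exp (-2) * Real.cos (N (m + 1) * x)
        + Real.exp (-(2 * 2)) * Real.cos (2 * N (m + 1) * x))) := by
      funext m
      have e1 : Real.exp 2 * Real.exp (-2) = 1 := by rw [← Real.exp_add]; simp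
      have e2 : Real.exp 2 * Real.exp (-(2 * 2)) = Real.exp (-2) := by
        rw [← Real.exp_add]; congr 1; norm_num
      calc Real.cos (N (m + 1) * x) + Real.exp (-2) * Real.cos (2 * N (m + 1) * x)
          = (Real.exp 2 * Real.exp (-2)) * Real.cos (N (m + 1) * x)
            + (Real.exp 2 * Real.exp (-(2 * 2))) * Real.cos (2 * N (m + 1) * x) := by
              rw [e1, e2]; ring
        _ = _ := by ring
    rw [this]; simpa using hA2
  have hne : Real.exp (-1) - Real.exp (-2) ≠ 0 := by
    have : Real.exp (-2) < Real.exp (-1) := Real.exp_lt_exp.mpr (by norm_num)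
    linarith
  have hC : Tendsto (fun m : ℕ => Real.cos (2 * N (m + 1) * x)) atTop (𝓝 0) := by
    have h1 := (hB1.sub hB2).const_mul (Real.exp (-1) - Real.exp (-2))⁻¹
    have : (fun m : ℕ => Real.cos (2 * N (m + 1) * x)) = fun m : ℕ =>
      (Real.exp (-1) - Real.exp (-2))⁻¹ * ((Real.cos (N (m + 1) * x)
      + Real.exp (-1) * Real.cos (2 * N (m + 1) * x)) - (Real.cos (N (m + 1) * x)
      + Real.exp (-2) * Real.cos (2 * N (m + 1) * x))) := by
      funext m
      field_simp
      ring
    rw [this]; simpa using h1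
  have hD : Tendsto (fun m : ℕ => Real.cos (N (m + 1) * x)) atTop (𝓝 0) := by
    have h1 := hB1.sub (hC.const_mul (Real.exp (-1)))
    simpa using h1
  have hE : Tendsto (fun m : ℕ => 2 * Real.cos (N (m + 1) * x) ^ 2 - 1) atTop (𝓝 (-1)) := by
    have h1 := ((hD.pow 2).const_mul 2).sub_const 1
    simpa using h1
  have hF : (fun m : ℕ => 2 * Real.cos (N (m + 1) * x) ^ 2 - 1)
      = fun m : ℕ => Real.cos (2 * N (m + 1) * x) := by
    funext m
    rw [mul_assoc, Real.cos_two_mul]
  rw [hF] at hE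
  have := tendsto_nhds_unique hC hE
  norm_num at this

/-- For every `n ≥ 2` and all constants `0 < c₁ ≤ c₂` with `R` nonempty there is a function `u`,
multiply harmonic on `U` and bounded on `R`, which has a restricted limit at no boundary point. -/
theorem result : ∀ n : ℕ, 2 ≤ n → ∀ c₁ c₂ : ℝ, 0 < c₁ → c₁ ≤ c₂ → (Region n c₁ c₂).Nonempty →
    ∃ u : (Fin n → ℂ) → ℝ, MultiplyHarmonic u ∧
      (∃ C : ℝ, ∀ z ∈ Region n c₁ c₂, |u z| ≤ C) ∧
      ∀ x : Fin n → ℝ, ¬ HasRestrictedLimitAt u c₁ c₂ x := by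
  intro n hn c₁ c₂ hc₁ hc₂ hR
  set a : Fin n := ⟨0, by omega⟩ with ha
  set b : Fin n := ⟨1, by omega⟩ with hb
  have hab : a < b := by simp [ha, hb, Fin.lt_def]
  have hne : a ≠ b := hab.ne
  refine ⟨fun z => (z b).im * (V (z a)).re, ?_, ?_, ?_⟩
  · intro z hz j
    by_cases hja : j = a
    · subst hja
      have h1 : (fun w : ℂ => (Function.update z a w b).im * (V (Function.update z a w a)).re)
          = (z b).im • fun w : ℂ => (V w).re := by
        funext w
        simp [Function.update_of_ne hne.symm]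
      rw [h1]
      exact ((analyticAt_V (hz a)).harmonicAt_re).const_smul
    · by_cases hjb : j = b
      · subst hjb
        have h1 : (fun w : ℂ => (Function.update z b w b).im * (V (Function.update z b w a)).re)
            = (V (z a)).re • fun w : ℂ => (w).im := by
          funext w
          simp [Function.update_of_ne hne, mul_comm]
        rw [h1]
        exact (AnalyticAt.harmonicAt_im (f := fun w : ℂ => w) analyticAt_id).const_smul
      · have h1 : (fun w : ℂ => (Function.update z j w b).im * (V (Function.update z j w a)).re)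
            = fun w : ℂ => (z b).im * (V (z a)).re := by
          funext w
          rw [Function.update_of_ne (Ne.symm hjb), Function.update_of_ne (Ne.symm hja)]
        rw [h1]
        exact harmonicAt_const _
  · refine ⟨4 / c₁, fun z hz => ?_⟩
    obtain ⟨hzU, hzR⟩ := hz
    have h1 := (hzR a b hab).1
    have hza := hzU a
    have hzb := hzU b
    have h2 : (z b).im ≤ (z a).im / c₁ := by
      rw [le_div_iff₀ hc₁]
      rw [le_div_iff₀ hzb] at h1
      linarith
    have h3 := norm_V_le hza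
    have h4 := (Complex.abs_re_le_norm (V (z a))).trans h3
    show |(z b).im * (V (z a)).re| ≤ 4 / c₁
    rw [abs_mul, abs_of_pos hzb]
    calc (z b).im * |(V (z a)).re| ≤ ((z a).im / c₁) * (4 / (z a).im) :=
          mul_le_mul h2 h4 (abs_nonneg _) (by positivity)
      _ = 4 / c₁ := by field_simp
  · rintro x ⟨ℓ, hℓ⟩
    obtain ⟨z₀, hz₀U, hz₀R⟩ := hR
    have hη : ∀ j, 0 < (z₀ j).im := hz₀U
    -- the approach path
    set path : ℝ → Fin n → ℂ := fun t j => (x j : ℂ) + ((t * (z₀ j).im : ℝ) : ℂ) * Complex.I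
      with hpath
    have hpim : ∀ t j, (path t j).im = t * (z₀ j).im := by
      intro t j; simp [hpath]
    have hpre : ∀ t j, (path t j).re = x j := by
      intro t j; simp [hpath]
    have hmem : ∀ t : ℝ, 0 < t → path t ∈ ProductCone x ∩ Region n c₁ c₂ := by
      intro t ht
      have hU : path t ∈ HalfPlanes n := fun j => by rw [hpim]; exact mul_pos ht (hη j)
      refine ⟨⟨hU, fun j => ?_⟩, hU, fun j k hjk => ?_⟩
      · rw [hpre, hpim]; simpa using mul_pos ht (hη j)
      · rw [hpim, hpim, mul_div_mul_left _ _ ht.ne']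
        exact hz₀R j k hjk
    have hcont : Tendsto path (𝓝[>] 0) (𝓝 (fun j => ((x j : ℝ) : ℂ))) := by
      have hc : Continuous path := by
        rw [hpath]; fun_prop
      have h0 : path 0 = fun j => ((x j : ℝ) : ℂ) := by
        funext j; simp [hpath]
      rw [← h0]
      exact (hc.tendsto 0).mono_left nhdsWithin_le_nhds
    have hpl : Tendsto path (𝓝[>] 0)
        (𝓝[ProductCone x ∩ Region n c₁ c₂] (fun j => ((x j : ℝ) : ℂ))) :=
      tendsto_nhdsWithin_iff.mpr ⟨hcont, by
        filter_upwards [self_mem_nhdsWithin] with t ht using hmem t ht⟩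
    have hu := hℓ.comp hpl
    -- contradiction with `no_limit`
    apply no_limit (x a) ((z₀ a).im / (z₀ b).im * ℓ)
    intro s hs
    have hseq : Tendsto (fun m : ℕ => s / N (m + 1) / (z₀ a).im) atTop (𝓝[>] 0) := by
      rw [tendsto_nhdsWithin_iff]
      constructor
      · have h1 : Tendsto (fun m : ℕ => N (m + 1)) atTop atTop := by
          have h2 : Tendsto (fun m : ℕ => (2 : ℝ) ^ m) atTop atTop :=
            tendsto_pow_atTop_atTop_of_one_lt (by norm_num)
          refine tendsto_atTop_mono (fun m => ?_) h2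
          unfold N
          exact pow_le_pow_right₀ (by norm_num) (by nlinarith)
        have h3 := (h1.const_div_atTop s).div_const (z₀ a).im
        simpa using h3
      · exact Eventually.of_forall fun m => by
          have := N_pos (m + 1)
          have := hη a
          show 0 < s / N (m + 1) / (z₀ a).im
          positivity
    have h5 := (hu.comp hseq).const_mul ((z₀ a).im / (z₀ b).im)
    refine h5.congr (fun m => ?_)
    have hN := (N_pos (m + 1)).ne'
    have hηa := (hη a).ne'
    have hηb := (hη b).ne'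
    have e1 : path (s / N (m + 1) / (z₀ a).im) a
        = (x a : ℂ) + ((s / N (m + 1) : ℝ) : ℂ) * Complex.I := by
      simp only [hpath]
      congr 3
      field_simp
    simp only [Function.comp_apply]
    rw [hpim, e1]
    field_simp

end Pool.Agent.Results.MP_653b50_an.NoRestrictedLimit
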